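import Pool.Agent.Helper67.SQ.Comb

/-! Block 2 of MP_9b5db0_gt: two Sperner lemmas on the triangulated binary tiling. -/

set_option autoImplicit false

namespace Helper67.SQ

namespace Sp

/-- the cochain counting edges with colours `{1, 2}` -/
def sg (a b : Fin 3) : ZMod 2 := if (a = 1 ∧ b = 2) ∨ (a = 2 ∧ b = 1) then 1 else 0

/-- its primitive on vertices with colours `1, 2` -/
def c2 (a : Fin 3) : ZMod 2 := if a = 2 then 1 else 0

theorem sg_eq : ∀ a b : Fin 3, a ≠ 0 → b ≠ 0 → sg a b = c2 a + c2 b := by decide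
theorem sg_left : ∀ a b : Fin 3, a ≠ 2 → b ≠ 2 → sg a b = 0 := by decide
theorem sg_right : ∀ a b : Fin 3, a ≠ 1 → b ≠ 1 → sg a b = 0 := by decide

theorem sg_tri : ∀ a b c : Fin 3, sg a b + sg b c + sg a c ≠ 0 →
    (a = 0 ∧ b = 1 ∧ c = 2) ∨ (a = 0 ∧ b = 2 ∧ c = 1) ∨ (a = 1 ∧ b = 0 ∧ c = 2) ∨
    (a = 1 ∧ b = 2 ∧ c = 0) ∨ (a = 2 ∧ b = 0 ∧ c = 1) ∨ (a = 2 ∧ b = 1 ∧ c = 0) := by decide

theorem adj_symm {p q : V} (h : Adj p q) : Adj q p := h.symm

theorem tri_of_ne {col : V → Fin 3} {p q w : V} (Q : V → Prop) (hp : Q p) (hq : Q q) (hw : Q w)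
    (hpq : Adj p q) (hqw : Adj q w) (hpw : Adj p w)
    (h : sg (col p) (col q) + sg (col q) (col w) + sg (col p) (col w) ≠ 0) :
    ∃ p₀ p₁ p₂, Tri col p₀ p₁ p₂ ∧ Q p₁ := by
  rcases sg_tri _ _ _ h with ⟨h1, h2, h3⟩ | ⟨h1, h2, h3⟩ | ⟨h1, h2, h3⟩ | ⟨h1, h2, h3⟩ |
    ⟨h1, h2, h3⟩ | ⟨h1, h2, h3⟩
  · exact ⟨p, q, w, ⟨hpq, hqw, hpw, h1, h2, h3⟩, hq⟩
  · exact ⟨p, w, q, ⟨hpw, adj_symm hqw, hpq, h1, h3, h2⟩, hw⟩
  · exact ⟨q, p, w, ⟨adj_symm hpq, hpw, hqw, h2, h1, h3⟩, hp⟩
  · exact ⟨w, p, q, ⟨adj_symm hpw, hpq, adj_symm hqw, h3, h1, h2⟩, hp⟩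
  · exact ⟨q, w, p, ⟨hqw, adj_symm hpw, adj_symm hpq, h2, h3, h1⟩, hw⟩
  · exact ⟨w, q, p, ⟨adj_symm hqw, adj_symm hpq, adj_symm hpw, h3, h2, h1⟩, hq⟩

theorem two_eq : (2 : ZMod 2) = 0 := rfl

/-- primitives on `ℤ` -/
theorem exists_prim (g : ℤ → ZMod 2) : ∃ F : ℤ → ZMod 2, ∀ i, F (i + 1) = F i + g i := by
  refine ⟨fun i => match i with
    | Int.ofNat n => ∑ j ∈ Finset.range n, g (Int.ofNat j)
    | Int.negSucc n => - ∑ j ∈ Finset.range (n + 1), g (Int.negSucc j), ?_⟩
  intro i
  match i with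
  | Int.ofNat n =>
    change ∑ j ∈ Finset.range (n + 1), g (Int.ofNat j) = _
    rw [Finset.sum_range_succ]
  | Int.negSucc 0 =>
    change ∑ j ∈ Finset.range 0, g (Int.ofNat j) = _
    simp
    linear_combination (- g (-1)) * two_eq
  | Int.negSucc (m + 1) =>
    change - ∑ j ∈ Finset.range (m + 1), g (Int.negSucc j) =
      - ∑ j ∈ Finset.range (m + 1 + 1), g (Int.negSucc j) + g (Int.negSucc (m + 1))
    rw [Finset.sum_range_succ (fun j => g (Int.negSucc j)) (m + 1)]
    ring

section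

variable (col : V → Fin 3) (F : ℤ → ℤ → ZMod 2)
  (hF : ∀ d i, F d (i + 1) = F d i + sg (col (d, i)) (col (d, i + 1)))

include hF

theorem strip_odd (d l l' : ℤ) (hl' : l' = 2 * l ∨ l' = 2 * l + 1) (r : ℤ) (hlr : l ≤ r) :
    (∀ i, l ≤ i → i ≤ r → l' ≤ 2 * i →
      sg (col (d, i)) (col (d + 1, 2 * i)) + sg (col (d + 1, 2 * i)) (col (d + 1, 2 * i + 1)) +
        sg (col (d, i)) (col (d + 1, 2 * i + 1)) = 0) →
    (∀ i, l ≤ i → i < r →
      sg (col (d, i)) (col (d, i + 1)) + sg (col (d, i + 1)) (col (d + 1, 2 * i + 1)) +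
        sg (col (d, i)) (col (d + 1, 2 * i + 1)) = 0) →
    (∀ i, l ≤ i → i < r →
      sg (col (d, i + 1)) (col (d + 1, 2 * i + 1)) +
        sg (col (d + 1, 2 * i + 1)) (col (d + 1, 2 * i + 1 + 1)) +
        sg (col (d, i + 1)) (col (d + 1, 2 * i + 1 + 1)) = 0) →
    F d l + F d r + F (d + 1) l' + F (d + 1) (2 * r + 1) + sg (col (d, l)) (col (d + 1, l')) +
      sg (col (d, r)) (col (d + 1, 2 * r + 1)) = 0 := by
  induction r, hlr using Int.le_induction with
  | base =>
    intro hA _ _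
    rcases hl' with rfl | rfl
    · have h1 := hA l le_rfl le_rfl le_rfl
      have h2 := hF (d + 1) (2 * l)
      rw [h2]
      linear_combination h1 + (F d l + F (d + 1) (2 * l)) * two_eq
    · linear_combination (F d l + F (d + 1) (2 * l + 1) +
        sg (col (d, l)) (col (d + 1, 2 * l + 1))) * two_eq
  | succ r hlr ih =>
    intro hA hB hC
    have ih' := ih (fun i h1 h2 h3 => hA i h1 (by omega) h3) (fun i h1 h2 => hB i h1 (by omega))
      (fun i h1 h2 => hC i h1 (by omega))
    have b := hB r hlr (by omega)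
    have c := hC r hlr (by omega)
    have a := hA (r + 1) (by omega) le_rfl (by omega)
    have e : 2 * (r + 1) = 2 * r + 1 + 1 := by ring
    rw [e] at a ⊢
    have f1 := hF d r
    have f2 := hF (d + 1) (2 * r + 1)
    have f3 := hF (d + 1) (2 * r + 1 + 1)
    rw [f3, f2, f1]
    linear_combination ih' + a + b + c +
      (- sg (col (d, r)) (col (d + 1, 2 * r + 1)) - sg (col (d, r + 1)) (col (d + 1, 2 * r + 1))
        - sg (col (d, r + 1)) (col (d + 1, 2 * r + 1 + 1))) * two_eq

theorem strip (d l r l' r' : ℤ) (hlr : l ≤ r) (hl' : l' = 2 * l ∨ l' = 2 * l + 1)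
    (hr' : r' = 2 * r ∨ r' = 2 * r + 1) (hlr' : l' ≤ r')
    (hA : ∀ i, l ≤ i → i ≤ r → l' ≤ 2 * i → 2 * i + 1 ≤ r' →
      sg (col (d, i)) (col (d + 1, 2 * i)) + sg (col (d + 1, 2 * i)) (col (d + 1, 2 * i + 1)) +
        sg (col (d, i)) (col (d + 1, 2 * i + 1)) = 0)
    (hB : ∀ i, l ≤ i → i < r →
      sg (col (d, i)) (col (d, i + 1)) + sg (col (d, i + 1)) (col (d + 1, 2 * i + 1)) +
        sg (col (d, i)) (col (d + 1, 2 * i + 1)) = 0)
    (hC : ∀ i, l ≤ i → i < r →
      sg (col (d, i + 1)) (col (d + 1, 2 * i + 1)) +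
        sg (col (d + 1, 2 * i + 1)) (col (d + 1, 2 * i + 1 + 1)) +
        sg (col (d, i + 1)) (col (d + 1, 2 * i + 1 + 1)) = 0) :
    F d l + F d r + F (d + 1) l' + F (d + 1) r' + sg (col (d, l)) (col (d + 1, l')) +
      sg (col (d, r)) (col (d + 1, r')) = 0 := by
  rcases hr' with rfl | rfl
  · rcases eq_or_lt_of_le hlr with rfl | hlt
    · have : l' = 2 * l := by omega
      subst this
      linear_combination (F d l + F (d + 1) (2 * l) +
        sg (col (d, l)) (col (d + 1, 2 * l))) * two_eq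
    · obtain ⟨r, rfl⟩ : ∃ r₀, r = r₀ + 1 := ⟨r - 1, by ring⟩
      have h1 := strip_odd col F hF d l l' hl' r (by omega)
        (fun i h1 h2 h3 => hA i h1 (by omega) h3 (by omega)) (fun i h1 h2 => hB i h1 (by omega))
        (fun i h1 h2 => hC i h1 (by omega))
      have b := hB r (by omega) (by omega)
      have c := hC r (by omega) (by omega)
      have e : 2 * (r + 1) = 2 * r + 1 + 1 := by ring
      rw [e]
      rw [hF (d + 1) (2 * r + 1), hF d r]
      linear_combination h1 + b + c +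
        (- sg (col (d, r)) (col (d + 1, 2 * r + 1)) - sg (col (d, r + 1)) (col (d + 1, 2 * r + 1)))
          * two_eq
  · exact strip_odd col F hF d l l' hl' r hlr
      (fun i h1 h2 h3 => hA i h1 h2 h3 (by omega)) hB hC

/-- The sum of the strip identities of a region between two descending paths. -/
theorem region (Q : V → Prop) (hQ : ∀ p₀ p₁ p₂, Tri col p₀ p₁ p₂ → ¬ Q p₁) (s : ℤ)
    (l r : ℕ → ℤ) (n : ℕ) (hl : IsDesc n l) (hr : IsDesc n r) (hlr : ∀ k ≤ n, l k ≤ r k)
    (hin : ∀ k ≤ n, ∀ i, l k ≤ i → i ≤ r k → Q (s + k, i)) :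
    F s (l 0) + F s (r 0) + F (s + n) (l n) + F (s + n) (r n) +
      ∑ k ∈ Finset.range n, (sg (col (s + k, l k)) (col (s + (k + 1 : ℕ), l (k + 1))) +
        sg (col (s + k, r k)) (col (s + (k + 1 : ℕ), r (k + 1)))) = 0 := by
  have key : ∀ p q w : V, Q p → Q q → Q w → Adj p q → Adj q w → Adj p w →
      sg (col p) (col q) + sg (col q) (col w) + sg (col p) (col w) = 0 := by
    intro p q w hp hq hw h1 h2 h3
    by_contra hne
    obtain ⟨p₀, p₁, p₂, ht, hQ1⟩ := tri_of_ne Q hp hq hw h1 h2 h3 hne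
    exact hQ _ _ _ ht hQ1
  induction n with
  | zero =>
    simp only [Finset.range_zero, Finset.sum_empty, Nat.cast_zero, add_zero]
    linear_combination (F s (l 0) + F s (r 0)) * two_eq
  | succ n ih =>
    have ih' := ih (fun k hk => hl k (by omega)) (fun k hk => hr k (by omega))
      (fun k hk => hlr k (by omega)) (fun k hk => hin k (by omega))
    rw [Finset.sum_range_succ]
    have ecast : s + ((n + 1 : ℕ) : ℤ) = s + n + 1 := by push_cast; ring
    have hl1 := hl n (by omega)
    have hr1 := hr n (by omega)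
    have hlr0 := hlr n (by omega)
    have hlr1 := hlr (n + 1) le_rfl
    have hin0 := hin n (by omega)
    have hin1 := hin (n + 1) le_rfl
    rw [ecast] at hin1 ⊢
    have hst := strip col F hF (s + n) (l n) (r n) (l (n + 1)) (r (n + 1)) hlr0 hl1 hr1 hlr1
      (by
        intro i h1 h2 h3 h4
        apply key
        · exact hin0 i h1 h2
        · exact hin1 (2 * i) h3 (by omega)
        · exact hin1 (2 * i + 1) (by omega) h4
        · exact Or.inl (Edge.left _ _)
        · exact Or.inl (Edge.horiz _ _)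
        · exact Or.inl (Edge.right _ _))
      (by
        intro i h1 h2
        apply key
        · exact hin0 i h1 (by omega)
        · exact hin0 (i + 1) (by omega) (by omega)
        · exact hin1 (2 * i + 1) (by omega) (by omega)
        · exact Or.inl (Edge.horiz _ _)
        · exact Or.inl (Edge.diag _ _)
        · exact Or.inl (Edge.right _ _))
      (by
        intro i h1 h2
        apply key
        · exact hin0 (i + 1) (by omega) (by omega)
        · exact hin1 (2 * i + 1) (by omega) (by omega)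
        · exact hin1 (2 * i + 1 + 1) (by omega) (by omega)
        · exact Or.inl (Edge.diag _ _)
        · exact Or.inl (Edge.horiz _ _)
        · have : Edge (s + n, i + 1) (s + n + 1, 2 * (i + 1)) := Edge.left _ _
          have e : 2 * (i + 1) = 2 * i + 1 + 1 := by ring
          rw [e] at this
          exact Or.inl this)
    linear_combination ih' + hst - (F (s + n) (l n) + F (s + n) (r n)) * two_eq

/-- rows with colours `1, 2` -/
theorem row (d a b : ℤ) (hab : a ≤ b) :
    (∀ i, a ≤ i → i ≤ b → col (d, i) ≠ 0) → F d a + F d b = c2 (col (d, a)) + c2 (col (d, b)) := by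
  induction b, hab using Int.le_induction with
  | base =>
    intro _
    linear_combination (F d a - c2 (col (d, a))) * two_eq
  | succ b hab ih =>
    intro h
    have ih' := ih fun i h1 h2 => h i h1 (by omega)
    have h1 := sg_eq _ _ (h b hab (by omega)) (h (b + 1) (by omega) le_rfl)
    rw [hF, h1]
    linear_combination ih' + c2 (col (d, b)) * two_eq

end

/-- columns with colours `1, 2` -/
theorem column (col : V → Fin 3) (s : ℤ) (a : ℕ → ℤ) (n : ℕ) (h : ∀ k ≤ n, col (s + k, a k) ≠ 0) :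
    ∑ k ∈ Finset.range n, sg (col (s + k, a k)) (col (s + (k + 1 : ℕ), a (k + 1))) =
      c2 (col (s, a 0)) + c2 (col (s + n, a n)) := by
  induction n with
  | zero =>
    simp only [Finset.range_zero, Finset.sum_empty, Nat.cast_zero, add_zero]
    linear_combination -c2 (col (s, a 0)) * two_eq
  | succ n ih =>
    rw [Finset.sum_range_succ, ih fun k hk => h k (by omega),
      sg_eq _ _ (h n (by omega)) (h (n + 1) le_rfl)]
    linear_combination c2 (col (s + n, a n)) * two_eq

theorem sum_zero_left (col : V → Fin 3) (s : ℤ) (a : ℕ → ℤ) (n : ℕ)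
    (h : ∀ k ≤ n, col (s + k, a k) ≠ 2) :
    ∑ k ∈ Finset.range n, sg (col (s + k, a k)) (col (s + (k + 1 : ℕ), a (k + 1))) = 0 :=
  Finset.sum_eq_zero fun k hk => by
    have := Finset.mem_range.mp hk
    exact sg_left _ _ (h k (by omega)) (h (k + 1) (by omega))

theorem sum_zero_right (col : V → Fin 3) (s : ℤ) (a : ℕ → ℤ) (n : ℕ)
    (h : ∀ k ≤ n, col (s + k, a k) ≠ 1) :
    ∑ k ∈ Finset.range n, sg (col (s + k, a k)) (col (s + (k + 1 : ℕ), a (k + 1))) = 0 :=
  Finset.sum_eq_zero fun k hk => by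
    have := Finset.mem_range.mp hk
    exact sg_right _ _ (h k (by omega)) (h (k + 1) (by omega))

theorem c2_one : ∀ a : Fin 3, a ≠ 0 → a ≠ 2 → c2 a = 0 := by decide
theorem c2_two : ∀ a : Fin 3, a ≠ 0 → a ≠ 1 → c2 a = 1 := by decide

/-- descending paths from the middle column stay in the middle column -/
theorem desc_bounds {n : ℕ} {l : ℕ → ℤ} (hl : IsDesc n l) {u : ℤ} {N : ℕ}
    (hu1 : u * 2 ^ N ≤ l 0) (hu2 : l 0 < (u + 1) * 2 ^ N) (k : ℕ) (hk : k ≤ n) :
    u * 2 ^ (N + k) ≤ l k ∧ l k < (u + 1) * 2 ^ (N + k) := by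
  induction k with
  | zero => exact ⟨hu1, hu2⟩
  | succ k ih =>
    obtain ⟨h1, h2⟩ := ih (by omega)
    have e : (2 : ℤ) ^ (N + (k + 1)) = 2 * 2 ^ (N + k) := by ring
    rw [e]
    rcases hl k (by omega) with h | h <;> rw [h] <;> constructor <;> nlinarith

end Sp

open Sp in
/-- Two Sperner lemmas: a trichromatic triangle inside the region between the two rays, and one
outside. -/
theorem sperner_two (col : V → Fin 3) (s u : ℤ) (N n : ℕ) (l r : ℕ → ℤ)
    (hl : IsDesc n l) (hr : IsDesc n r) (h0 : l 0 = r 0) (hlr : ∀ k ≤ n, l k ≤ r k)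
    (hu1 : u * 2 ^ N ≤ l 0) (hu2 : l 0 < (u + 1) * 2 ^ N)
    (hleft : ∀ k ≤ n, col (s + k, l k) ≠ 2) (hright : ∀ k ≤ n, col (s + k, r k) ≠ 1)
    (hbot : ∀ i : ℤ, (u - 1) * 2 ^ (N + n) ≤ i → i ≤ (u + 2) * 2 ^ (N + n) →
      col (s + n, i) ≠ 0)
    (htop : ∀ i : ℤ, u - 1 ≤ i → i ≤ u + 2 → col (s - N, i) ≠ 0)
    (hlc : ∀ k ≤ N + n, col (s - N + k, (u - 1) * 2 ^ k) ≠ 0)
    (hrc : ∀ k ≤ N + n, col (s - N + k, (u + 2) * 2 ^ k) ≠ 0) :
    (∃ p₀ p₁ p₂, Tri col p₀ p₁ p₂ ∧ p₁ ∈ Reg s n l r ∧ p₁ ∈ Win s N n u) ∧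
    (∃ p₀ p₁ p₂, Tri col p₀ p₁ p₂ ∧ p₁ ∉ Int' s n l r ∧ p₁ ∈ Win s N n u) := by
  have hprim : ∀ d : ℤ, ∃ G : ℤ → ZMod 2, ∀ i, G (i + 1) = G i + sg (col (d, i)) (col (d, i + 1)) :=
    fun d => exists_prim _
  choose F hF using hprim
  have bl := fun k (hk : k ≤ n) => desc_bounds hl hu1 hu2 k hk
  have br := fun k (hk : k ≤ n) => desc_bounds hr (h0 ▸ hu1) (h0 ▸ hu2) k hk
  have hpos : ∀ k : ℕ, (0 : ℤ) < 2 ^ k := fun k => by positivity
  have hcl : c2 (col (s + n, l n)) = 0 := by
    apply c2_one _ (hbot _ _ _) (hleft n le_rfl)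
    · have := (bl n le_rfl).1
      nlinarith [hpos (N + n)]
    · have := (bl n le_rfl).2
      nlinarith [hpos (N + n)]
  have hcr : c2 (col (s + n, r n)) = 1 := by
    apply c2_two _ (hbot _ _ _) (hright n le_rfl)
    · have := (br n le_rfl).1
      nlinarith [hpos (N + n)]
    · have := (br n le_rfl).2
      nlinarith [hpos (N + n)]
  have win_mem : ∀ k ≤ n, ∀ i : ℤ, (u - 1) * 2 ^ (N + k) ≤ i → i ≤ (u + 2) * 2 ^ (N + k) →
      ((s + k, i) : V) ∈ Win s N n u := by
    intro k hk i h1 h2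
    exact ⟨N + k, by omega, by push_cast; ring, h1, h2⟩
  constructor
  · by_contra hcon
    push Not at hcon
    have h := region col F hF (fun p => p ∈ Reg s n l r ∧ p ∈ Win s N n u)
      (fun p₀ p₁ p₂ ht hQ => hcon p₀ p₁ p₂ ht hQ.1 hQ.2) s l r n hl hr hlr (by
        intro k hk i h1 h2
        refine ⟨⟨k, hk, rfl, h1, h2⟩, win_mem k hk i ?_ ?_⟩
        · have := (bl k hk).1
          nlinarith [hpos (N + k)]
        · have := (br k hk).2
          nlinarith [hpos (N + k)])
    rw [Finset.sum_add_distrib, sum_zero_left col s l n hleft,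
      sum_zero_right col s r n hright, ← h0] at h
    have hrow := row col F hF (s + n) (l n) (r n) (hlr n le_rfl) (by
      intro i h1 h2
      apply hbot
      · have := (bl n le_rfl).1
        nlinarith [hpos (N + n)]
      · have := (br n le_rfl).2
        nlinarith [hpos (N + n)])
    rw [hcl, hcr] at hrow
    have : (1 : ZMod 2) = 0 := by
      linear_combination h - hrow - F s (l 0) * two_eq
    exact one_ne_zero this
  · by_contra hcon
    push Not at hcon
    have hQ : ∀ p₀ p₁ p₂, Tri col p₀ p₁ p₂ → ¬ (p₁ ∉ Int' s n l r ∧ p₁ ∈ Win s N n u) :=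
      fun p₀ p₁ p₂ ht hQ => hcon p₀ p₁ p₂ ht hQ.1 hQ.2
    set a : ℕ → ℤ := fun k => (u - 1) * 2 ^ k with ha
    set b : ℕ → ℤ := fun k => (u + 2) * 2 ^ k with hb
    have hda : ∀ m, IsDesc m a := fun m k _ => Or.inl (by simp only [ha]; ring)
    have hdb : ∀ m, IsDesc m b := fun m k _ => Or.inl (by simp only [hb]; ring)
    have hda' : ∀ m, IsDesc m (fun k => a (N + k)) := fun m k _ => Or.inl (by simp only [ha]; ring)
    have hdb' : ∀ m, IsDesc m (fun k => b (N + k)) := fun m k _ => Or.inl (by simp only [hb]; ring)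
    -- piece 1
    have e1 := region col F hF (fun p => p ∉ Int' s n l r ∧ p ∈ Win s N n u) hQ (s - N) a b N
      (hda N) (hdb N) (fun k _ => by simp only [ha, hb]; nlinarith [hpos k]) (by
        intro k hk i h1 h2
        refine ⟨?_, ⟨k, by omega, rfl, h1, h2⟩⟩
        rintro ⟨k', hk', _, he, _⟩
        simp only at he
        omega)
    -- piece 2
    have e2 := region col F hF (fun p => p ∉ Int' s n l r ∧ p ∈ Win s N n u) hQ s
      (fun k => a (N + k)) l n (hda' n) hl
      (fun k hk => by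
        have := (bl k hk).1
        simp only [ha]
        nlinarith [hpos (N + k)]) (by
        intro k hk i h1 h2
        refine ⟨?_, win_mem k hk i h1 ?_⟩
        · rintro ⟨k', _, _, he, hlt, _⟩
          simp only at he hlt
          have : k' = k := by omega
          subst this
          omega
        · have := (bl k hk).2
          nlinarith [hpos (N + k)])
    -- piece 3
    have e3 := region col F hF (fun p => p ∉ Int' s n l r ∧ p ∈ Win s N n u) hQ s
      r (fun k => b (N + k)) n hr (hdb' n)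
      (fun k hk => by
        have := (br k hk).2
        simp only [hb]
        nlinarith [hpos (N + k)]) (by
        intro k hk i h1 h2
        refine ⟨?_, win_mem k hk i ?_ h2⟩
        · rintro ⟨k', _, _, he, _, hlt⟩
          simp only at he hlt
          have : k' = k := by omega
          subst this
          omega
        · have := (br k hk).1
          nlinarith [hpos (N + k)])
    rw [Finset.sum_add_distrib] at e1 e2 e3
    rw [sum_zero_left col s l n hleft] at e2
    rw [sum_zero_right col s r n hright] at e3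
    have ca1 := column col (s - N) a N (fun k hk => hlc k (by omega))
    have cb1 := column col (s - N) b N (fun k hk => hrc k (by omega))
    have ca2 := column col s (fun k => a (N + k)) n (fun k hk => by
      have := hlc (N + k) (by omega)
      have e : s - N + ((N + k : ℕ) : ℤ) = s + k := by push_cast; ring
      rw [e] at this
      exact this)
    have cb2 := column col s (fun k => b (N + k)) n (fun k hk => by
      have := hrc (N + k) (by omega)
      have e : s - N + ((N + k : ℕ) : ℤ) = s + k := by push_cast; ring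
      rw [e] at this
      exact this)
    rw [ca1, cb1] at e1
    rw [ca2] at e2
    rw [cb2] at e3
    have es : s - (N : ℤ) + N = s := by ring
    rw [es] at e1
    have rt := row col F hF (s - N) (a 0) (b 0) (by simp only [ha, hb, pow_zero]; omega) (by
      intro i h1 h2
      simp only [ha, hb, pow_zero, mul_one] at h1 h2
      exact htop i h1 h2)
    have rl := row col F hF (s + n) (a (N + n)) (l n) (by
      have := (bl n le_rfl).1
      simp only [ha]
      nlinarith [hpos (N + n)]) (by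
      intro i h1 h2
      apply hbot i h1
      have := (bl n le_rfl).2
      nlinarith [hpos (N + n)])
    have rr := row col F hF (s + n) (r n) (b (N + n)) (by
      have := (br n le_rfl).2
      simp only [hb]
      nlinarith [hpos (N + n)]) (by
      intro i h1 h2
      refine hbot i ?_ h2
      have := (br n le_rfl).1
      nlinarith [hpos (N + n)])
    simp only [add_zero] at e1 e2 e3
    rw [← h0] at e3
    rw [hcl] at rl
    rw [hcr] at rr
    have : (1 : ZMod 2) = 0 := by
      linear_combination e1 + e2 + e3 - rt - rl - rr -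
        (F s (a N) + F s (b N) + F s (l 0) + c2 (col (s - N, a 0)) + c2 (col (s - N, b 0))
          + c2 (col (s, a N)) + c2 (col (s, b N)) + c2 (col (s + n, a (N + n)))
          + c2 (col (s + n, b (N + n)))) * two_eq
    exact one_ne_zero this

end Helper67.SQ
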